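import Pool.Agent.Q307.BoxP.Defs
import Pool.Agent.Q307.BoxP.Core

/-!
# MP_4cb3df_gt: the box powers are never metanormal

For every infinite cardinal `κ`, regular or not, the space of all functions from `κ⁺` to `κ`
with the topology given by supports of size below `κ` is not metanormal.
-/

namespace Pool.Agent.Results.MP_4cb3df_gt.NeverMetanormal

open Cardinal Set Pool.Agent.Q307.BoxP

universe u

/-- **Q1, full answer (yes).** In ZFC, for every infinite cardinal `κ`, the box power
`<κ-□^{κ⁺} κ` is not metanormal. -/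
theorem result (κ : Cardinal.{u}) (hκ : ℵ₀ ≤ κ) :
    ¬ @Metanormal (Pow κ) (boxTopology κ hκ) := by
  classical
  letI : TopologicalSpace (Pow κ) := boxTopology κ hκ
  intro hM
  have hIcard : #κ.ord.ToType = κ := Cardinal.mk_ord_toType κ
  have hKcard : #(Order.succ κ).ord.ToType = Order.succ κ := Cardinal.mk_ord_toType _
  haveI : Infinite κ.ord.ToType := by
    rw [← Cardinal.aleph0_le_mk_iff, hIcard]
    exact hκ
  let v : ℕ → κ.ord.ToType := fun n => Infinite.natEmbedding κ.ord.ToType n
  have hv : Function.Injective v := (Infinite.natEmbedding κ.ord.ToType).injective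
  let F : ℕ → Set (Pow κ) := fun n => {w | ∀ ξ, ξ ≠ v n → (w ⁻¹' {ξ}).Subsingleton}
  have hpair : ∀ a b : (Order.succ κ).ord.ToType, #({a, b} : Set _) < κ := by
    intro a b
    exact lt_of_lt_of_le (Cardinal.lt_aleph0_iff_set_finite.mpr (Set.toFinite _)) hκ
  have hE : ∀ (D : Set (Order.succ κ).ord.ToType) (x : Pow κ), #D < κ → IsOpen (E D x) := by
    intro D x hD y hy
    refine ⟨D, hD, ?_⟩
    intro z hz a ha
    rw [hz a ha, hy a ha]
  have hclosed : ∀ n, IsClosed (F n) := by
    intro n
    rw [← isOpen_compl_iff]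
    intro x hx
    have hx' : ¬ ∀ ξ, ξ ≠ v n → (x ⁻¹' {ξ}).Subsingleton := hx
    push Not at hx'
    obtain ⟨ξ, hξ, hnt⟩ := hx'
    obtain ⟨a, ha, b, hb, hab⟩ := hnt
    refine ⟨{a, b}, hpair a b, ?_⟩
    intro y hy hyF
    apply hab
    have h1 : y a = x a := hy a (by simp)
    have h2 : y b = x b := hy b (by simp)
    have ha' : x a = ξ := ha
    have hb' : x b = ξ := hb
    exact hyF ξ hξ (show y a = ξ by rw [h1, ha']) (show y b = ξ by rw [h2, hb'])
  have hdisc : DiscreteSeq F := by
    intro x
    have hni : ¬ Function.Injective x := by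
      intro hinj
      have := Cardinal.mk_le_of_injective hinj
      rw [hIcard, hKcard] at this
      exact absurd (Order.lt_succ κ) (not_lt.mpr this)
    simp only [Function.Injective, not_forall] at hni
    obtain ⟨a, b, hxab, hab⟩ := hni
    refine ⟨E {a, b} x, hE _ x (hpair a b), fun _ _ => rfl, ?_⟩
    have key : ∀ m, (E {a, b} x ∩ F m).Nonempty → x a = v m := by
      rintro m ⟨z, hz, hzF⟩
      by_contra hne
      apply hab
      have h1 : z a = x a := hz a (by simp)
      have h2 : z b = x b := hz b (by simp)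
      exact hzF (x a) hne (show z a = x a from h1) (show z b = x a by rw [h2, hxab])
    intro m n hm hn
    exact hv ((key m hm).symm.trans (key n hn))
  obtain ⟨U, hU, hfin⟩ := hM F hclosed hdisc
  obtain ⟨y, hy⟩ := Core.core (K := (Order.succ κ).ord.ToType) (I := κ.ord.ToType) v U (by
    intro n w hw
    obtain ⟨D, hD, hDU⟩ := (hU n).1 w ((hU n).2 hw)
    refine ⟨D, ?_, hDU⟩
    rw [hIcard]
    exact hD)
  exact Set.infinite_univ ((hfin y).subset fun n _ => hy n)

end Pool.Agent.Results.MP_4cb3df_gt.NeverMetanormal
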